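import Mathlib

set_option autoImplicit false

namespace Pool.Agent.Results.MP_1a7a11_al.Counter

open Filter Set DihedralGroup

noncomputable def box {G : Type} [Group G] (u v : Ultrafilter G) : Ultrafilter G :=
  u.bind fun x => v.map fun y => x * y

noncomputable def dia {G : Type} [Group G] (u v : Ultrafilter G) : Ultrafilter G :=
  v.bind fun y => u.map fun x => x * y

def GG : Subgroup (∀ i : ℕ, DihedralGroup (2 * i + 3)) where
  carrier := {g | ∀ᶠ i in atTop, g i = 1}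
  one_mem' := Eventually.of_forall fun _ => rfl
  mul_mem' ha hb := (ha.and hb).mono fun i h => by simp [h.1, h.2]
  inv_mem' ha := ha.mono fun i h => by simp [h]

def rot {n : ℕ} : DihedralGroup n → ZMod n
  | r a => a
  | sr a => a

def ref {n : ℕ} : DihedralGroup n → Prop
  | r _ => False
  | sr _ => True

def y (n : ℕ) : GG := ⟨fun i => if i < n then r 1 else if i = n then sr 0 else 1,
  (eventually_gt_atTop n).mono fun i h => by simp [h.not_gt, h.ne']⟩

def F (n : ℕ) : Set GG := {g | ∀ i > n, g.1 i = 1}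

lemma F_fin (n : ℕ) : (F n).Finite := by
  refine Finite.of_finite_image (f := fun (g : GG) (i : Iic n) => g.1 i) (toFinite _) ?_
  intro a ha b hb h
  refine Subtype.ext (funext fun i => ?_)
  rcases le_or_gt i n with hi | hi
  · exact congrFun h ⟨i, hi⟩
  · rw [ha i hi, hb i hi]

lemma mem_F (g : GG) : ∃ n, g ∈ F n := by
  obtain ⟨n, hn⟩ := eventually_atTop.1 g.2
  exact ⟨n, fun i hi => hn i hi.le⟩

def E (g : GG) : Set ℕ := {i | ref (g.1 i)}

lemma E_fin (g : GG) : (E g).Finite := by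
  obtain ⟨n, hn⟩ := mem_F g
  refine (finite_Iic n).subset fun i hi => mem_Iic.2 (not_lt.1 fun h => ?_)
  have : ref (g.1 i) := hi
  rw [hn i h] at this
  exact this

noncomputable def c (g : GG) (i : ℕ) : ℕ := (E g ∩ Ioi i).ncard
def ok (g : GG) (i : ℕ) : Prop := rot (g.1 i) = (c g i : ZMod (2 * i + 3))
def R (g : GG) : Set ℕ := {n | n ∈ E g ∧ ∀ i ≥ n, ok g i}
noncomputable def J (g : GG) (k : ℕ) : ℕ := (E g ∩ Iio ((E g).ncard + k)).ncard

lemma mul_lt (g : GG) {n i : ℕ} (h : i < n) :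
    rot ((g * y n).1 i) = rot (g.1 i) + 1 ∧ (i ∈ E (g * y n) ↔ i ∈ E g) := by
  show rot (g.1 i * _) = _ ∧ (ref (g.1 i * _) ↔ ref (g.1 i))
  simp only [y, if_pos h]
  cases g.1 i <;> exact ⟨rfl, Iff.rfl⟩

lemma mul_eq (g : GG) (n : ℕ) :
    rot ((g * y n).1 n) = - rot (g.1 n) ∧ (n ∈ E (g * y n) ↔ n ∉ E g) := by
  show rot (g.1 n * _) = _ ∧ (ref (g.1 n * _) ↔ ¬ ref (g.1 n))
  simp only [y, lt_irrefl, if_false, if_true]
  cases g.1 n <;> simp [rot, ref]

lemma mul_gt (g : GG) {n i : ℕ} (h : n < i) : (g * y n).1 i = g.1 i := by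
  show g.1 i * _ = _
  simp [y, h.not_gt, h.ne']

lemma E_ne (g : GG) {n i : ℕ} (h : i ≠ n) : i ∈ E (g * y n) ↔ i ∈ E g := by
  rcases h.lt_or_gt with h | h
  · exact (mul_lt g h).2
  · show ref _ ↔ ref _
    rw [mul_gt g h]

lemma E_ins {g : GG} {n : ℕ} (h : n ∉ E g) : E (g * y n) = insert n (E g) := by
  ext i
  by_cases hi : i = n
  · simp [hi, (mul_eq g n).2, h]
  · simp [hi, E_ne g hi]

lemma E_del {g : GG} {n : ℕ} (h : n ∈ E g) : E g = insert n (E (g * y n)) := by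
  ext i
  by_cases hi : i = n
  · simp [hi, h]
  · simp [hi, E_ne g hi]

lemma c_ge (g : GG) {n i : ℕ} (h : n ≤ i) : c (g * y n) i = c g i := by
  unfold c
  congr 1
  ext j
  exact and_congr_left fun hj => E_ne g (lt_of_le_of_lt h hj).ne'

lemma ins_card {s t : Set ℕ} (hs : s.Finite) {n : ℕ} (h : n ∉ s) (ht : n ∈ t) :
    (insert n s ∩ t).ncard = (s ∩ t).ncard + 1 := by
  rw [insert_inter_of_mem ht, ncard_insert_of_notMem (fun h' => h h'.1) (hs.inter_of_left _)]

lemma ok_gt (g : GG) {n i : ℕ} (h : n < i) : ok (g * y n) i ↔ ok g i := by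
  rw [ok, ok, mul_gt g h, c_ge g h.le]

lemma top {g : GG} {m n : ℕ} (hg : g ∈ F m) (h : m < n) :
    n ∉ E g ∧ (∀ i ≥ n, ok g i) ∧ ∀ i, ok (g * y n) i ↔ ok g i := by
  have h1 : ∀ i ≥ n, i ∉ E g := fun i hi (h1 : ref _) => by
    rw [hg i (h.trans_le hi)] at h1; exact h1
  have h2 : ∀ i ≥ n, c g i = 0 := fun i hi => by
    rw [c, eq_empty_of_forall_notMem (s := E g ∩ Ioi i) fun j hj => h1 j (hi.trans (le_of_lt hj.2)) hj.1,
      ncard_empty]
  have h3 : ∀ i ≥ n, ok g i := fun i hi => by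
    rw [ok, hg i (h.trans_le hi), h2 i hi, Nat.cast_zero]; rfl
  refine ⟨h1 n le_rfl, h3, fun i => ?_⟩
  rcases lt_trichotomy i n with hi | rfl | hi
  · rw [ok, ok, (mul_lt g hi).1, c, E_ins (h1 n le_rfl), 
      ins_card (E_fin g) (h1 n le_rfl) (mem_Ioi.2 hi)]
    simp [c]
  · refine iff_of_true ?_ (h3 i le_rfl)
    rw [ok, (mul_eq g i).1, c_ge g le_rfl, h3 i le_rfl, h2 i le_rfl]
    simp
  · exact ok_gt g hi

lemma R_top {g : GG} {m n : ℕ} (hg : g ∈ F m) (h : m < n) :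
    (R (g * y n)).ncard = (R g).ncard + 1 := by
  obtain ⟨h1, h2, h3⟩ := top hg h
  rw [← ncard_insert_of_notMem (s := R g) (fun h => h1 h.1) ((E_fin g).subset fun _ h => h.1)]
  congr 1
  ext i
  simp only [R, E_ins h1, h3, mem_insert_iff, mem_setOf_eq]
  constructor
  · rintro ⟨h4 | h4, h5⟩
    exacts [Or.inl h4, Or.inr ⟨h4, h5⟩]
  · rintro (rfl | h4)
    exacts [⟨Or.inl rfl, h2⟩, ⟨Or.inr h4.1, h4.2⟩]

lemma R_low {g : GG} {n i : ℕ} (h : n < i) (hi : ¬ ok g i) : R (g * y n) = R g := by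
  ext m
  rcases le_or_gt m n with hm | hm
  · exact iff_of_false (fun h1 => hi ((ok_gt g h).1 (h1.2 i (hm.trans h.le))))
      fun h1 => hi (h1.2 i (hm.trans h.le))
  · exact and_congr (E_ne g hm.ne') (forall₂_congr fun j hj => ok_gt g (hm.trans_le hj))

lemma J_top {g : GG} {n : ℕ} (h1 : n ∉ E g) (h2 : (E g).ncard < n) : J (g * y n) 0 = J g 1 := by
  rw [J, J, E_ins h1, ncard_insert_of_notMem h1 (E_fin g), insert_inter_of_notMem]
  simp only [mem_Iio]
  omega

lemma J_low {g : GG} {n : ℕ} (h0 : g ∉ F (n + 1)) (h1 : ∀ i ≥ n, ok g i)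
    (h2 : ∀ i ≥ n, ok (g * y (n + 1)) i) : J (g * y (n + 1)) 0 = J g 1 + 1 := by
  have h3 : n + 1 ∉ E g := fun h3 => by
    have a := h1 n le_rfl
    have b := h2 n le_rfl
    rw [ok, (mul_lt g n.lt_succ_self).1, a, c, E_del h3, ins_card (E_fin _)
      (fun h => (mul_eq g _).2.1 h h3) (mem_Ioi.2 n.lt_succ_self)] at b
    have : ((2 : ℕ) : ZMod (2 * n + 3)) = 0 := by
      simp only [c] at b
      push_cast at b ⊢
      linear_combination b
    have := Nat.le_of_dvd two_pos ((ZMod.natCast_eq_zero_iff _ _).1 this)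
    omega
  have h4 : c g (n + 1) ≠ 0 := fun h4 => h0 fun i hi => by
    have h5 : E g ∩ Ioi (n + 1) = ∅ := (ncard_eq_zero ((E_fin g).inter_of_left _)).1 h4
    have h6 : ¬ ref (g.1 i) := fun h => eq_empty_iff_forall_notMem.1 h5 i ⟨h, hi⟩
    have h7 := h1 i (by omega)
    rw [ok, c, eq_empty_of_forall_notMem (s := E g ∩ Ioi i) fun j hj =>
      eq_empty_iff_forall_notMem.1 h5 j
      ⟨hj.1, lt_trans hi hj.2⟩, ncard_empty] at h7
    cases h8 : g.1 i with
    | r a => rw [h8] at h7; rw [show a = 0 by simpa [rot] using h7]; rfl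
    | sr a => rw [h8] at h6; exact absurd trivial h6
  have h5 : ((2 * c g (n + 1) : ℕ) : ZMod (2 * (n + 1) + 3)) = 0 := by
    have b := h2 (n + 1) n.le_succ
    rw [ok, (mul_eq g _).1, h1 (n + 1) n.le_succ, c_ge g le_rfl] at b
    push_cast
    linear_combination -b
  have h6 := Nat.le_of_dvd (by omega) ((ZMod.natCast_eq_zero_iff _ _).1 h5)
  have h7 : c g (n + 1) ≤ (E g).ncard := ncard_le_ncard inter_subset_left (E_fin g)
  rw [J, J, E_ins h3, ncard_insert_of_notMem h3 (E_fin g), ins_card (E_fin g) h3]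
  simp only [mem_Iio]
  omega

lemma parity {α : Type} (u : Ultrafilter α) (f : α → ℕ) :
    ∃ e, ∀ᶠ x in (u : Filter α), f x % 2 = e := by
  rcases u.em fun x => f x % 2 = 0 with h | h
  · exact ⟨0, h⟩
  · exact ⟨1, h.mono fun y hy => by omega⟩

theorem result : ∃ (G : Type) (_ : Group G), Countable G ∧ Infinite G ∧
    (∀ g : G, (conjugatesOf g).Finite) ∧
    ∃ v : Ultrafilter G, ∀ u : Ultrafilter G, (∀ g, u ≠ pure g) → box u v ≠ dia u v := by
  refine ⟨GG, inferInstance, ?_, Infinite.of_injective y fun a b h => ?_, fun g => ?_,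
    (hyperfilter ℕ).map y, fun u hu he => ?_⟩
  · exact countable_univ_iff.1 ((countable_iUnion fun n => (F_fin n).countable).mono
      fun g _ => mem_iUnion.2 (mem_F g))
  · by_contra hn
    have h1 := (mul_eq 1 a).2
    rw [h, E_ne 1 hn] at h1
    tauto
  · obtain ⟨n, hn⟩ := mem_F g
    refine (F_fin n).subset fun k hk i hi => ?_
    obtain ⟨t, rfl⟩ := isConj_iff.1 hk
    show t.1 i * g.1 i * (t.1 i)⁻¹ = 1
    simp [hn i hi]
  have key : ∀ p : GG → Prop,
      (∀ᶠ x in (u : Filter GG), ∀ᶠ n in atTop, p (x * y n)) →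
      ¬ ∀ᶠ n in atTop, ∀ᶠ x in (u : Filter GG), ¬ p (x * y n) := by
    intro p h1 h2
    have h3 : {g | p g} ∈ box u ((hyperfilter ℕ).map y) :=
      Filter.mem_bind'.2 (h1.mono fun x hx => Nat.hyperfilter_le_atTop hx)
    have h4 : {g | p g}ᶜ ∈ dia u ((hyperfilter ℕ).map y) :=
      Filter.mem_bind'.2 (mem_map.2 (mem_map.2 (Nat.hyperfilter_le_atTop h2)))
    exact Ultrafilter.compl_mem_iff_notMem.1 h4 (he ▸ h3)
  have hu' : (u : Filter GG) ≤ cofinite :=
    u.le_cofinite_or_eq_pure.resolve_right fun ⟨a, ha⟩ => hu a ha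
  by_cases h : ∃ L, ∀ᶠ x in (u : Filter GG), ∀ i ≥ L, ok x i
  · obtain ⟨L, hL⟩ := h
    obtain ⟨e, he⟩ := parity u (J · 1)
    refine key (fun g => (∀ i ≥ L, ok g i) ∧ J g 0 % 2 = e) ?_ ?_
    · filter_upwards [hL, he] with x h1 h2
      obtain ⟨m, hm⟩ := mem_F x
      filter_upwards [eventually_gt_atTop m, eventually_gt_atTop (E x).ncard] with n h3 h4
      obtain ⟨h5, -, h6⟩ := top hm h3
      exact ⟨fun i hi => (h6 i).2 (h1 i hi), by rwa [J_top h5 h4]⟩
    · filter_upwards [eventually_gt_atTop L] with n hn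
      obtain ⟨n, rfl⟩ : ∃ k, n = k + 1 := ⟨n - 1, by omega⟩
      filter_upwards [hL, he, hu' (F_fin (n + 1)).compl_mem_cofinite] with x h1 h2 h3 h4
      have := J_low h3 (fun i hi => h1 i (by omega)) fun i hi => h4.1 i (by omega)
      omega
  · obtain ⟨e, he⟩ := parity u fun x => (R x).ncard + 1
    refine key (fun g => (R g).ncard % 2 = e) ?_ (Eventually.of_forall fun n => ?_)
    · filter_upwards [he] with x h1
      obtain ⟨m, hm⟩ := mem_F x
      filter_upwards [eventually_gt_atTop m] with n h3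
      rwa [R_top hm h3]
    · filter_upwards [he, Ultrafilter.eventually_not.2 fun h1 => h ⟨n + 1, h1⟩] with x h1 h2
      push Not at h2
      obtain ⟨i, hi, h2⟩ := h2
      rw [R_low hi h2]
      omega

end Pool.Agent.Results.MP_1a7a11_al.Counter
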